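import Pool.Agent.Y772.ND.Stm3
import Pool.Agent.W401.Cheb.Main

/-!
# Frobenius class functions which do not vanish infinitely often
-/

set_option autoImplicit false

namespace Pool.Agent.Y314.ND

open NumberField Filter Topology Pool.Agent.W401.Cheb Pool.Agent.Y772.ND

section

variable {L : Type} [Field L] [NumberField L] [IsGalois ℚ L]

theorem hom_count {p q : ℕ} [Fact p.Prime] [Fact q.Prime] (hp : TorAt L p) (hq : TorAt L q)
    (g : Gal(L/ℚ)) {φ : 𝓞 L →+* AlgebraicClosure (ZMod p)} (hφ : HasFrob p φ g)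
    {ψ : 𝓞 L →+* AlgebraicClosure (ZMod q)} (hψ : HasFrob q ψ g) (H : Subgroup Gal(L/ℚ)) :
    Nat.card (𝓞 (IntermediateField.fixedField H) →+* ZMod p) =
      Nat.card (𝓞 (IntermediateField.fixedField H) →+* ZMod q) := by
  have h1 := card_fixed hp hφ H
  have h2 := card_fixed hq hψ H
  have h3 : 0 < Nat.card H := Nat.card_pos
  exact Nat.eq_of_mul_eq_mul_left h3 (h1.trans h2.symm)

theorem xp_le {p : ℕ} [Fact p.Prime] (hp : TorAt L p) (g : Gal(L/ℚ)) :
    xp L g p ≤ Nat.card Gal(L/ℚ) := by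
  classical
  rw [← sum_xp hp]
  exact Finset.single_le_sum (f := fun g => xp L g p) (fun _ _ => Nat.zero_le _)
    (Finset.mem_univ g)

theorem exists_hom {p : ℕ} (hp : p.Prime) (g : Gal(L/ℚ)) (h : xp L g p ≠ 0) :
    haveI : Fact p.Prime := ⟨hp⟩
    ∃ φ : 𝓞 L →+* AlgebraicClosure (ZMod p), HasFrob p φ g := by
  unfold xp at h
  rw [dif_pos hp] at h
  obtain ⟨φ, hφ⟩ := (Nat.card_ne_zero.1 h).1
  exact ⟨φ, hφ⟩

end

theorem t_FRB : P_FRB := by
  classical
  intro L _ _ _ ι _ E lam hinf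
  obtain ⟨H, hH⟩ : ∃ H : ι → Subgroup Gal(L/ℚ), E = fun i => IntermediateField.fixedField (H i) :=
    ⟨fun i => (E i).fixingSubgroup, funext fun i => (IsGalois.fixedField_fixingSubgroup (E i)).symm⟩
  subst hH
  obtain ⟨D, hD, hTor⟩ := torsor L
  obtain ⟨p₀, ⟨hp₀, hne⟩, hD0⟩ := hinf.exists_gt D
  have hnd : ¬ p₀ ∣ D := fun h => absurd (Nat.le_of_dvd hD h) (not_le_of_gt hD0)
  haveI : Fact p₀.Prime := ⟨hp₀⟩
  have hT0 : TorAt L p₀ := hTor p₀ hnd
  obtain ⟨φ₀⟩ := nonempty_hom hT0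
  obtain ⟨g, hg⟩ := exists_frob hT0 φ₀
  have hval : ∀ p : ℕ, p.Prime → ¬ p ∣ D → xp L g p ≠ 0 →
      ∑ i, lam i * (Nat.card (𝓞 (IntermediateField.fixedField (H i)) →+* ZMod p) : ℝ) =
      ∑ i, lam i * (Nat.card (𝓞 (IntermediateField.fixedField (H i)) →+* ZMod p₀) : ℝ) := by
    intro p hp hpD hx
    haveI : Fact p.Prime := ⟨hp⟩
    obtain ⟨φ, hφ⟩ := exists_hom hp g hx
    refine Finset.sum_congr rfl fun i _ => ?_
    rw [hom_count (hTor p hpD) hT0 g hφ hg (H i)]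
  have hG : (0 : ℝ) < Nat.card Gal(L/ℚ) := by exact_mod_cast Nat.card_pos
  refine ⟨1 / (2 * Nat.card Gal(L/ℚ)),
    |∑ i, lam i * (Nat.card (𝓞 (IntermediateField.fixedField (H i)) →+* ZMod p₀) : ℝ)|,
    by positivity, abs_pos.2 hne, ?_⟩
  obtain ⟨C, hC⟩ : ∃ C : ℝ, C = ∑ p ∈ Finset.range (D + 1), (xp L g p : ℝ) := ⟨_, rfl⟩
  have hC0 : 0 ≤ C := by
    rw [hC]
    exact Finset.sum_nonneg fun _ _ => Nat.cast_nonneg _
  have hche := chebotarev L g
  have hev1 : ∀ᶠ N : ℕ in atTop, (3 / 4 : ℝ) <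
      (∑ p ∈ pr N, (xp L g p : ℝ)) / (Nat.primeCounting N : ℝ) :=
    hche.eventually (lt_mem_nhds (by norm_num))
  have hpi : Tendsto (fun N : ℕ => (Nat.primeCounting N : ℝ)) atTop atTop :=
    tendsto_natCast_atTop_atTop.comp Nat.tendsto_primeCounting
  have hev2 : ∀ᶠ N : ℕ in atTop, 4 * C + 1 ≤ (Nat.primeCounting N : ℝ) :=
    hpi.eventually (eventually_ge_atTop _)
  filter_upwards [hev1, hev2] with N h1 h2
  have hpos : (0 : ℝ) < Nat.primeCounting N := by linarith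
  rw [lt_div_iff₀ hpos] at h1
  have hsub : (pr N).filter (fun p => ¬ p ∣ D ∧ xp L g p ≠ 0) ⊆
      (Finset.range (N + 1)).filter (fun p => p.Prime ∧
        |∑ i, lam i * (Nat.card (𝓞 (IntermediateField.fixedField (H i)) →+* ZMod p₀) : ℝ)| ≤
        |∑ i, lam i * (Nat.card (𝓞 (IntermediateField.fixedField (H i)) →+* ZMod p) : ℝ)|) := by
    intro p hp
    rw [Finset.mem_filter] at hp
    obtain ⟨hp1, hp2, hp3⟩ := hp
    unfold pr at hp1
    rw [Finset.mem_filter] at hp1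
    rw [Finset.mem_filter]
    exact ⟨hp1.1, hp1.2, (hval p hp1.2 hp2 hp3).symm ▸ le_rfl⟩
  have hcard : (((pr N).filter (fun p => ¬ p ∣ D ∧ xp L g p ≠ 0)).card : ℝ) ≤
      (((Finset.range (N + 1)).filter (fun p => p.Prime ∧
        |∑ i, lam i * (Nat.card (𝓞 (IntermediateField.fixedField (H i)) →+* ZMod p₀) : ℝ)| ≤
        |∑ i, lam i * (Nat.card (𝓞 (IntermediateField.fixedField (H i)) →+* ZMod p) : ℝ)|)).card : ℝ) := by
    exact_mod_cast Finset.card_le_card hsub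
  refine le_trans ?_ hcard
  have hsum : ∑ p ∈ pr N, (xp L g p : ℝ) ≤
      C + Nat.card Gal(L/ℚ) * (((pr N).filter (fun p => ¬ p ∣ D ∧ xp L g p ≠ 0)).card : ℝ) := by
    rw [← Finset.sum_filter_add_sum_filter_not (pr N) (fun p => ¬ p ∣ D ∧ xp L g p ≠ 0), add_comm C]
    refine add_le_add ?_ ?_
    · have : ∑ p ∈ (pr N).filter (fun p => ¬ p ∣ D ∧ xp L g p ≠ 0), (xp L g p : ℝ) ≤
          ∑ p ∈ (pr N).filter (fun p => ¬ p ∣ D ∧ xp L g p ≠ 0), (Nat.card Gal(L/ℚ) : ℝ) := by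
        refine Finset.sum_le_sum fun p hp => ?_
        rw [Finset.mem_filter] at hp
        obtain ⟨hp1, hp2, _⟩ := hp
        unfold pr at hp1
        haveI : Fact p.Prime := ⟨(Finset.mem_filter.1 hp1).2⟩
        exact_mod_cast xp_le (hTor p hp2) g
      refine this.trans ?_
      rw [Finset.sum_const, nsmul_eq_mul, mul_comm]
    · rw [hC]
      have h3 : ∑ p ∈ (pr N).filter (fun p => ¬ (¬ p ∣ D ∧ xp L g p ≠ 0)), (xp L g p : ℝ) =
          ∑ p ∈ ((pr N).filter (fun p => ¬ (¬ p ∣ D ∧ xp L g p ≠ 0))).filter (fun p => p ∣ D),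
            (xp L g p : ℝ) := by
        rw [← Finset.sum_filter_add_sum_filter_not
          ((pr N).filter (fun p => ¬ (¬ p ∣ D ∧ xp L g p ≠ 0))) (fun p => p ∣ D)]
        rw [add_eq_left]
        refine Finset.sum_eq_zero fun p hp => ?_
        rw [Finset.mem_filter, Finset.mem_filter] at hp
        obtain ⟨⟨_, h4⟩, h5⟩ := hp
        have h6 : xp L g p = 0 := by
          by_contra h7
          exact h4 ⟨h5, h7⟩
        rw [h6, Nat.cast_zero]
      rw [h3]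
      refine Finset.sum_le_sum_of_subset_of_nonneg ?_ fun _ _ _ => Nat.cast_nonneg _
      intro p hp
      rw [Finset.mem_filter] at hp
      rw [Finset.mem_range]
      have := Nat.le_of_dvd hD hp.2
      omega
  have hfin : (1 / 2 : ℝ) * Nat.primeCounting N ≤
      Nat.card Gal(L/ℚ) * (((pr N).filter (fun p => ¬ p ∣ D ∧ xp L g p ≠ 0)).card : ℝ) := by
    linarith
  rw [one_div, ← div_eq_inv_mul, div_le_iff₀ (by positivity)]
  linarith

end Pool.Agent.Y314.ND
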